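import Pool.Agent.Lib_MP_5bbd08_al.Sym

/-!
# Brauer classes unramified outside the complete quadrilateral are cyclic (`p ≥ 5`)

Let `p ≥ 5` be a prime and `K` a field.  Let `x, y ∈ K` with `x, y ∉ {0, 1}` and `x ≠ y`, and let
`G` be the group generated by the five elements `x, 1 - x, y, 1 - y, x - y` and the `p`-th powers.
Then every element of the subgroup of `K₂(K)/p` generated by the symbols `{a, b}`, `a, b ∈ G`, is
equal to one symbol.  As in the frozen statements, `K₂(K)/p` is the quotient of `Kˣ ⊗ Kˣ` by the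
subgroup `R` generated by the multiples of `p` and by the `c ⊗ d` with `c + d = 1`.

For `K = ℂ(x, y)` the elements of this subgroup are the classes in the `p`-torsion of the Brauer
group of `ℂ(x, y)` which are unramified outside the six lines `x = 0`, `x = 1`, `y = 0`, `y = 1`,
`x = y` and the line at infinity of the projective plane (the complete quadrilateral, with
complement the moduli space of five points on the projective line).
-/

open scoped TensorProduct

namespace Pool.Agent.Results.MP_5bbd08_al.CompleteQuadrilateral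

/-- Let `p ≥ 5` be a prime, `K` a field and `x, y ∈ K`, `x, y ∉ {0, 1}`, `x ≠ y`.  Let `G` be the
subgroup of `Kˣ` generated by `x, 1 - x, y, 1 - y, x - y` and the `p`-th powers.  Then every sum of
symbols `{a, b}`, `a, b ∈ G`, is one symbol in `K₂(K)/p`. -/
theorem result (p : ℕ) (hp : p.Prime) (h5 : 5 ≤ p) (K : Type) [Field K]
    (R : AddSubgroup (Additive Kˣ ⊗[ℤ] Additive Kˣ))
    (hR : R = AddSubgroup.closure
      ({x | ∃ y : Additive Kˣ ⊗[ℤ] Additive Kˣ, x = p • y} ∪
       {x | ∃ c d : Kˣ, (c : K) + (d : K) = 1 ∧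
          x = Additive.ofMul c ⊗ₜ[ℤ] Additive.ofMul d}))
    (x y : K) (hx0 : x ≠ 0) (hx1 : x ≠ 1) (hy0 : y ≠ 0) (hy1 : y ≠ 1) (hxy : x ≠ y)
    (G : Subgroup Kˣ)
    (hG : G = Subgroup.closure {z : Kˣ | (z : K) = x ∨ (z : K) = 1 - x ∨ (z : K) = y ∨
      (z : K) = 1 - y ∨ (z : K) = x - y ∨ ∃ w : Kˣ, z = w ^ p})
    (t : Additive Kˣ ⊗[ℤ] Additive Kˣ)
    (ht : t ∈ AddSubgroup.closure {s | ∃ a ∈ G, ∃ b ∈ G,
      s = Additive.ofMul a ⊗ₜ[ℤ] Additive.ofMul b}) :
    ∃ a b : Kˣ, t - Additive.ofMul a ⊗ₜ[ℤ] Additive.ofMul b ∈ R := by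
  have hG' : G = MP5bbd.gp p {x, 1 - x, y, 1 - y, x - y} := by
    rw [hG]
    unfold MP5bbd.gp
    congr 1
    ext z
    simp only [Set.mem_insert_iff, Set.mem_singleton_iff, Set.mem_ofPred_eq, or_assoc]
  rw [hR]
  rw [hG'] at ht
  exact MP5bbd.main hp h5 hx0 hx1 hy0 hy1 hxy t ht

end Pool.Agent.Results.MP_5bbd08_al.CompleteQuadrilateral
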