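import Pool.Agent.Lib_MP_5bbd08_al.Five

/-!
# Brauer classes of exponent five ramified on five lines are cyclic

Let `C` be an algebraically closed field and `K` an extension field. Let `f, g, h ∈ K` and let
`l₀, …, l₄ ∈ Kˣ` be linear combinations of `f, g, h` with coefficients in `C`. Let `G` be the group
generated by the constants `Cˣ`, the ratios `lᵢ / lⱼ` and the fifth powers. Then every element of the
subgroup of `K₂(K)/5` generated by the symbols `{a, b}`, `a, b ∈ G`, is equal to one symbol. As in
the frozen statements, `K₂(K)/5` is the quotient of `Kˣ ⊗ Kˣ` by the subgroup `R` generated by the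
multiples of `5` and by the `c ⊗ d` with `c + d = 1`.

For `K = ℂ(x, y)` and `f, g, h = 1, x, y` the elements of this subgroup are the classes in the
`5`-torsion of the Brauer group of `ℂ(x, y)` which are unramified outside the five lines `lᵢ = 0` of
the projective plane.
-/

open scoped TensorProduct

namespace Pool.Agent.Results.MP_5bbd08_al.FiveLines

/-- Let `C` be an algebraically closed field, `K` an extension field, and let `l₀, …, l₄ ∈ Kˣ` lie
in the `C`-span of three elements `f, g, h` of `K`. Let `G` be the subgroup of `Kˣ` generated by the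
constants, the ratios `lᵢ / lⱼ` and the fifth powers. Then every sum of symbols `{a, b}`,
`a, b ∈ G`, is one symbol in `K₂(K)/5`. -/
theorem result (C : Type) [Field C] [IsAlgClosed C] (K : Type) [Field K] [Algebra C K]
    (R : AddSubgroup (Additive Kˣ ⊗[ℤ] Additive Kˣ))
    (hR : R = AddSubgroup.closure
      ({x | ∃ y : Additive Kˣ ⊗[ℤ] Additive Kˣ, x = 5 • y} ∪
       {x | ∃ c d : Kˣ, (c : K) + (d : K) = 1 ∧
          x = Additive.ofMul c ⊗ₜ[ℤ] Additive.ofMul d}))
    (f g h : K) (l : Fin 5 → Kˣ)
    (hl : ∀ i, ∃ a b c : C, (l i : K) = a • f + b • g + c • h)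
    (G : Subgroup Kˣ)
    (hG : G = Subgroup.closure {z : Kˣ | (∃ a : C, (z : K) = algebraMap C K a) ∨
      (∃ i j, z = l i / l j) ∨ ∃ w : Kˣ, z = w ^ 5})
    (t : Additive Kˣ ⊗[ℤ] Additive Kˣ)
    (ht : t ∈ AddSubgroup.closure {s | ∃ a ∈ G, ∃ b ∈ G,
      s = Additive.ofMul a ⊗ₜ[ℤ] Additive.ofMul b}) :
    ∃ a b : Kˣ, t - Additive.ofMul a ⊗ₜ[ℤ] Additive.ofMul b ∈ R := by
  rw [hR]
  rw [hG] at ht
  exact MP5bbd.main5 hl t ht

end Pool.Agent.Results.MP_5bbd08_al.FiveLines
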