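import Pool.Agent.Lib_MP_5bbd08_al.Five

/-!
# Brauer classes ramified on five lines with two opposite residues on one of them are cyclic

Let `C` be an algebraically closed field, `K` an extension field and `p` an odd prime. Let
`l₀, …, l₄ ∈ Kˣ` be linear combinations of three elements `f, g, h` of `K` with coefficients in `C`,
and let `n` be an antisymmetric integral `5 × 5` matrix with row sums `0`. If `n i j + n i m` is
divisible by `p` for some pairwise different `i, j, m`, then the class of
`∑_{i < j} n i j • {lᵢ, lⱼ}` in `K₂(K)/p` is one symbol. As in the frozen statements, `K₂(K)/p` is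
the quotient of `Kˣ ⊗ Kˣ` by the subgroup `R` generated by the multiples of `p` and by the `c ⊗ d`
with `c + d = 1`.

For `K = ℂ(x, y)`, `f, g, h = 1, x, y` and lines `lᵢ = 0` in general position these sums are the
classes in the `p`-torsion of the Brauer group of `ℂ(x, y)` which are unramified outside the five
lines, and `n i j` modulo `p` is the residue at the point `lᵢ = lⱼ = 0` of the residue along
`lᵢ = 0` (up to a common sign).
-/

open scoped TensorProduct

namespace Pool.Agent.Results.MP_5bbd08_al.OppositeResidues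

/-- Let `p` be an odd prime, `C` an algebraically closed field, `K` an extension field, let
`l₀, …, l₄ ∈ Kˣ` lie in the `C`-span of three elements of `K`, and let `n` be an antisymmetric
integral matrix with row sums `0` and two entries, in the same row `i` and in the columns
`j ≠ m`, both different from `i`, whose sum is divisible by `p`. Then `∑_{i < j} n i j • {lᵢ, lⱼ}`
is one symbol in `K₂(K)/p`. -/
theorem result (p : ℕ) (hp : p.Prime) (hodd : Odd p) (C : Type) [Field C] [IsAlgClosed C]
    (K : Type) [Field K] [Algebra C K]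
    (R : AddSubgroup (Additive Kˣ ⊗[ℤ] Additive Kˣ))
    (hR : R = AddSubgroup.closure
      ({x | ∃ y : Additive Kˣ ⊗[ℤ] Additive Kˣ, x = p • y} ∪
       {x | ∃ c d : Kˣ, (c : K) + (d : K) = 1 ∧
          x = Additive.ofMul c ⊗ₜ[ℤ] Additive.ofMul d}))
    (f g h : K) (l : Fin 5 → Kˣ)
    (hl : ∀ i, ∃ a b c : C, (l i : K) = a • f + b • g + c • h)
    (n : Fin 5 → Fin 5 → ℤ) (hn : ∀ i j, n j i = -n i j) (hs : ∀ i, ∑ j, n i j = 0)
    (i j m : Fin 5) (hij : i ≠ j) (him : i ≠ m) (hjm : j ≠ m) (hc : (p : ℤ) ∣ n i j + n i m) :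
    ∃ a b : Kˣ, (∑ i, ∑ j, if i < j then
        n i j • (Additive.ofMul (l i) ⊗ₜ[ℤ] Additive.ofMul (l j)) else 0) -
      Additive.ofMul a ⊗ₜ[ℤ] Additive.ofMul b ∈ R := by
  rw [hR]
  exact MP5bbd.main_all hp hodd hl n hn hs (Or.inr ⟨i, j, m, hij, him, hjm, hc⟩)

end Pool.Agent.Results.MP_5bbd08_al.OppositeResidues
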